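import Pool.Agent.Y527.HK.Uni
import Pool.Agent.H797R2.Hilbert.Transfer

/-!
# Homogeneous kernels
-/

set_option autoImplicit false
set_option linter.unusedSectionVars false

open MeasureTheory Set
open scoped ENNReal NNReal

namespace Pool.Agent.Y527.HK

open Pool.Agent.H797R2.Hilbert

section
variable {p q : ℝ} (hp : 1 < p) (hq : 1 < q) (hpq : 1 < 1 / p + 1 / q)
include hp hq hpq

/-- The inequality on the line, with a constant smaller than one. -/
theorem line_norm (H : ℝ → ℝ≥0∞) (hHm : Measurable H) (hH1 : ∫⁻ w, H w = 1)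
    (F G : ℝ → ℝ≥0∞) (hF : Measurable F) (hG : Measurable G)
    (hA0 : ∫⁻ s, F s ^ p ≠ 0) (hB0 : ∫⁻ t, G t ^ q ≠ 0)
    (hAt : ∫⁻ s, F s ^ p ≠ ⊤) (hBt : ∫⁻ t, G t ^ q ≠ ⊤) :
    ∫⁻ s, ∫⁻ t, F s * G t * (H (s - t)) ^ (lam p q)
      ≤ ENNReal.ofReal (gain p q) * (∫⁻ s, F s ^ p) ^ (1 / p) * (∫⁻ t, G t ^ q) ^ (1 / q) := by
  obtain ⟨i1, i2, i3, i4⟩ := inv_facts hp hq hpq
  have hp0 : 0 < p := by linarith
  have hq0 : 0 < q := by linarith
  set A := ∫⁻ s, F s ^ p with hA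
  set B := ∫⁻ t, G t ^ q with hB
  set u : ℝ → ℝ≥0∞ := fun s => A⁻¹ * F s ^ p with hu
  set v : ℝ → ℝ≥0∞ := fun t => B⁻¹ * G t ^ q with hv
  have hum : Measurable u := (hF.pow_const _).const_mul _
  have hvm : Measurable v := (hG.pow_const _).const_mul _
  have hu1 : ∫⁻ s, u s = 1 := by
    rw [hu, lintegral_const_mul _ (hF.pow_const _), ← hA, ENNReal.inv_mul_cancel hA0 hAt]
  have hv1 : ∫⁻ t, v t = 1 := by
    rw [hv, lintegral_const_mul _ (hG.pow_const _), ← hB, ENNReal.inv_mul_cancel hB0 hBt]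
  have hFu : ∀ s, F s = A ^ (1 / p) * (u s) ^ (1 / p) := by
    intro s
    rw [← ENNReal.mul_rpow_of_nonneg _ _ i1.le, hu]
    simp only
    rw [← mul_assoc, ENNReal.mul_inv_cancel hA0 hAt, one_mul, ← ENNReal.rpow_mul,
      mul_one_div_cancel hp0.ne', ENNReal.rpow_one]
  have hGv : ∀ t, G t = B ^ (1 / q) * (v t) ^ (1 / q) := by
    intro t
    rw [← ENNReal.mul_rpow_of_nonneg _ _ i3.le, hv]
    simp only
    rw [← mul_assoc, ENNReal.mul_inv_cancel hB0 hBt, one_mul, ← ENNReal.rpow_mul,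
      mul_one_div_cancel hq0.ne', ENNReal.rpow_one]
  have hAf : A ^ (1 / p) ≠ ⊤ := ENNReal.rpow_ne_top_of_nonneg i1.le hAt
  have hBf : B ^ (1 / q) ≠ ⊤ := ENNReal.rpow_ne_top_of_nonneg i3.le hBt
  calc ∫⁻ s, ∫⁻ t, F s * G t * (H (s - t)) ^ (lam p q)
      = ∫⁻ s, (A ^ (1 / p) * B ^ (1 / q)) * ∫⁻ t, (u s) ^ (1 / p) * (v t) ^ (1 / q) *
          (H (s - t)) ^ (lam p q) := by
        apply lintegral_congr; intro s
        rw [← lintegral_const_mul' _ _ (ENNReal.mul_ne_top hAf hBf)]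
        apply lintegral_congr; intro t
        rw [hFu s, hGv t]; ring
    _ = (A ^ (1 / p) * B ^ (1 / q)) * ∫⁻ s, ∫⁻ t, (u s) ^ (1 / p) * (v t) ^ (1 / q) *
          (H (s - t)) ^ (lam p q) :=
        lintegral_const_mul' _ _ (ENNReal.mul_ne_top hAf hBf)
    _ ≤ (A ^ (1 / p) * B ^ (1 / q)) * ENNReal.ofReal (gain p q) := by
        gcongr
        exact normalized_univ hp hq hpq H hHm hH1 u v hum hvm hu1 hv1
    _ = _ := by ring

/-- Young's inequality on the line with an explicit constant smaller than one. -/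
theorem line_univ (H : ℝ → ℝ≥0∞) (hHm : Measurable H)
    (F G : ℝ → ℝ≥0∞) (hF : Measurable F) (hG : Measurable G) :
    ∫⁻ s, ∫⁻ t, F s * G t * (H (s - t)) ^ (lam p q)
      ≤ ENNReal.ofReal (gain p q) * (∫⁻ w, H w) ^ (lam p q) *
        (∫⁻ s, F s ^ p) ^ (1 / p) * (∫⁻ t, G t ^ q) ^ (1 / q) := by
  obtain ⟨i1, i2, i3, i4⟩ := inv_facts hp hq hpq
  have hp0 : 0 < p := by linarith
  have hq0 : 0 < q := by linarith
  have hl0 := lam_pos hp hq hpq
  have hgne : ENNReal.ofReal (gain p q) ≠ 0 := (ENNReal.ofReal_pos.2 (gain_pos hp hq hpq)).ne'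
  by_cases hK0 : ∫⁻ w, H w = 0
  · have : ∫⁻ s, ∫⁻ t, F s * G t * (H (s - t)) ^ (lam p q) = 0 := by
      rw [← lintegral_zero (α := ℝ) (μ := volume)]
      apply lintegral_congr
      intro s
      have h1 : ∫⁻ t, H (s - t) = 0 := by rw [lintegral_shift, hK0]
      have hm : Measurable (fun t => H (s - t)) := hHm.comp (measurable_const.sub measurable_id)
      rw [lintegral_eq_zero_iff hm] at h1
      rw [← lintegral_zero (α := ℝ) (μ := volume)]
      apply lintegral_congr_ae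
      filter_upwards [h1] with t ht
      have ht' : H (s - t) = 0 := ht
      rw [ht', ENNReal.zero_rpow_of_pos hl0, mul_zero]
    rw [this]; exact zero_le
  by_cases hA0 : ∫⁻ s, F s ^ p = 0
  · have : ∫⁻ s, ∫⁻ t, F s * G t * (H (s - t)) ^ (lam p q) = 0 := by
      rw [← lintegral_zero (α := ℝ) (μ := volume)]
      apply lintegral_congr_ae
      rw [lintegral_eq_zero_iff (hF.pow_const _)] at hA0
      filter_upwards [hA0] with s hs
      have : F s = 0 := by simpa [ENNReal.rpow_eq_zero_iff, hp0, hp0.not_gt] using hs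
      simp [this]
    rw [this]; exact zero_le
  by_cases hB0 : ∫⁻ t, G t ^ q = 0
  · have : ∫⁻ s, ∫⁻ t, F s * G t * (H (s - t)) ^ (lam p q) = 0 := by
      rw [← lintegral_zero (α := ℝ) (μ := volume)]
      apply lintegral_congr
      intro s
      rw [← lintegral_zero (α := ℝ) (μ := volume)]
      apply lintegral_congr_ae
      rw [lintegral_eq_zero_iff (hG.pow_const _)] at hB0
      filter_upwards [hB0] with t ht
      have : G t = 0 := by simpa [ENNReal.rpow_eq_zero_iff, hq0, hq0.not_gt] using ht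
      simp [this]
    rw [this]; exact zero_le
  have hKp : (∫⁻ w, H w) ^ (lam p q) ≠ 0 :=
    (ENNReal.rpow_pos_of_nonneg (pos_iff_ne_zero.2 hK0) hl0.le).ne'
  have hAp : (∫⁻ s, F s ^ p) ^ (1 / p) ≠ 0 :=
    (ENNReal.rpow_pos_of_nonneg (pos_iff_ne_zero.2 hA0) i1.le).ne'
  have hBp : (∫⁻ t, G t ^ q) ^ (1 / q) ≠ 0 :=
    (ENNReal.rpow_pos_of_nonneg (pos_iff_ne_zero.2 hB0) i3.le).ne'
  by_cases hKt : ∫⁻ w, H w = ⊤
  · rw [hKt, ENNReal.top_rpow_of_pos hl0, ENNReal.mul_top hgne, ENNReal.top_mul hAp,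
      ENNReal.top_mul hBp]
    exact le_top
  by_cases hAt : ∫⁻ s, F s ^ p = ⊤
  · rw [hAt, ENNReal.top_rpow_of_pos i1, ENNReal.mul_top (mul_ne_zero hgne hKp),
      ENNReal.top_mul hBp]
    exact le_top
  by_cases hBt : ∫⁻ t, G t ^ q = ⊤
  · rw [hBt, ENNReal.top_rpow_of_pos i3, ENNReal.mul_top (mul_ne_zero (mul_ne_zero hgne hKp) hAp)]
    exact le_top
  -- normalization of the kernel
  obtain ⟨k, hk⟩ : ∃ k, k = ∫⁻ w, H w := ⟨_, rfl⟩
  rw [← hk] at hK0 hKt hKp ⊢
  have hH1 : ∫⁻ w, k⁻¹ * H w = 1 := by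
    rw [lintegral_const_mul _ hHm, ← hk, ENNReal.inv_mul_cancel hK0 hKt]
  have h := line_norm hp hq hpq (fun w => k⁻¹ * H w) (hHm.const_mul _) hH1 F G hF hG hA0 hB0
    hAt hBt
  have hkl : k ^ (lam p q) ≠ ⊤ := ENNReal.rpow_ne_top_of_nonneg hl0.le hKt
  have hHk : ∀ w, (H w) ^ (lam p q) = k ^ (lam p q) * (k⁻¹ * H w) ^ (lam p q) := by
    intro w
    rw [← ENNReal.mul_rpow_of_nonneg _ _ hl0.le, ← mul_assoc, ENNReal.mul_inv_cancel hK0 hKt,
      one_mul]
  calc ∫⁻ s, ∫⁻ t, F s * G t * (H (s - t)) ^ (lam p q)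
      = ∫⁻ s, k ^ (lam p q) * ∫⁻ t, F s * G t * (k⁻¹ * H (s - t)) ^ (lam p q) := by
        apply lintegral_congr; intro s
        rw [← lintegral_const_mul' _ _ hkl]
        apply lintegral_congr; intro t
        rw [hHk]; ring
    _ = k ^ (lam p q) * ∫⁻ s, ∫⁻ t, F s * G t * (k⁻¹ * H (s - t)) ^ (lam p q) :=
        lintegral_const_mul' _ _ hkl
    _ ≤ k ^ (lam p q) * (ENNReal.ofReal (gain p q) * (∫⁻ s, F s ^ p) ^ (1 / p) *
          (∫⁻ t, G t ^ q) ^ (1 / q)) := by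
        gcongr
    _ = _ := by ring

/-- the constant of a homogeneous kernel -/
noncomputable def kc (K : ℝ → ℝ → ℝ≥0∞) (p q : ℝ) : ℝ≥0∞ :=
  ∫⁻ x in Ioi (0 : ℝ), ENNReal.ofReal (x ^ (th p q - 1)) * K x 1

/-- measurable kernels which are homogeneous of degree `-1` -/
structure Homog (K : ℝ → ℝ → ℝ≥0∞) : Prop where
  meas : Measurable (Function.uncurry K)
  hom : ∀ c x y : ℝ, 0 < c → 0 < x → 0 < y → K (c * x) (c * y) = ENNReal.ofReal c⁻¹ * K x y

omit hp hq hpq in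
theorem kc_eq {K : ℝ → ℝ → ℝ≥0∞} :
    kc K p q = ∫⁻ w, ENNReal.ofReal (Real.exp (th p q * w)) * K (Real.exp w) 1 := by
  unfold kc
  rw [change_var]
  apply lintegral_congr
  intro s
  rw [← mul_assoc, ← ENNReal.ofReal_mul (Real.exp_pos s).le, ← Real.exp_mul, ← Real.exp_add]
  congr 3
  ring

/-- The inequality for homogeneous kernels. -/
theorem hom_ineq {K : ℝ → ℝ → ℝ≥0∞} (hK : Homog K) (f g : ℝ → ℝ≥0∞) (hf : Measurable f)
    (hg : Measurable g) :
    ∫⁻ x in Ioi (0 : ℝ), ∫⁻ y in Ioi (0 : ℝ), f x * g y * (K x y) ^ (lam p q)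
      ≤ ENNReal.ofReal (gain p q) * (kc K p q) ^ (lam p q) *
        (∫⁻ x in Ioi (0 : ℝ), f x ^ p) ^ (1 / p) * (∫⁻ y in Ioi (0 : ℝ), g y ^ q) ^ (1 / q) := by
  have hl := lam_pos hp hq hpq
  have hp0 : 0 < p := by linarith
  have hq0 : 0 < q := by linarith
  set F : ℝ → ℝ≥0∞ := fun s => ENNReal.ofReal (Real.exp (s / p)) * f (Real.exp s) with hF
  set G : ℝ → ℝ≥0∞ := fun t => ENNReal.ofReal (Real.exp (t / q)) * g (Real.exp t) with hG
  set H : ℝ → ℝ≥0∞ := fun w => ENNReal.ofReal (Real.exp (th p q * w)) * K (Real.exp w) 1 with hH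
  have mF : Measurable F :=
    (Real.measurable_exp.comp (measurable_id.div_const p)).ennreal_ofReal.mul
      (hf.comp Real.measurable_exp)
  have mG : Measurable G :=
    (Real.measurable_exp.comp (measurable_id.div_const q)).ennreal_ofReal.mul
      (hg.comp Real.measurable_exp)
  have mH : Measurable H := by
    have h1 : Measurable fun w : ℝ => K (Real.exp w) 1 :=
      hK.meas.comp (Real.measurable_exp.prodMk measurable_const)
    exact (Real.measurable_exp.comp (measurable_id.const_mul (th p q))).ennreal_ofReal.mul h1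
  have hFp : ∫⁻ x in Ioi (0 : ℝ), f x ^ p = ∫⁻ s, F s ^ p := by
    rw [change_var]
    apply lintegral_congr; intro s
    rw [hF]; simp only
    rw [ENNReal.mul_rpow_of_nonneg _ _ hp0.le, ENNReal.ofReal_rpow_of_nonneg (Real.exp_pos _).le
      hp0.le, ← Real.exp_mul, div_mul_cancel₀ _ hp0.ne']
  have hGq : ∫⁻ y in Ioi (0 : ℝ), g y ^ q = ∫⁻ t, G t ^ q := by
    rw [change_var]
    apply lintegral_congr; intro s
    rw [hG]; simp only
    rw [ENNReal.mul_rpow_of_nonneg _ _ hq0.le, ENNReal.ofReal_rpow_of_nonneg (Real.exp_pos _).le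
      hq0.le, ← Real.exp_mul, div_mul_cancel₀ _ hq0.ne']
  have hthl : th p q * lam p q = 1 - 1 / p := by
    unfold th; field_simp
  have hL : ∫⁻ x in Ioi (0 : ℝ), ∫⁻ y in Ioi (0 : ℝ), f x * g y * (K x y) ^ (lam p q)
      = ∫⁻ s, ∫⁻ t, F s * G t * (H (s - t)) ^ (lam p q) := by
    rw [change_var]
    apply lintegral_congr; intro s
    rw [change_var, ← lintegral_const_mul' _ _ ENNReal.ofReal_ne_top]
    apply lintegral_congr; intro t
    have e0 : K (Real.exp s) (Real.exp t) =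
        ENNReal.ofReal (Real.exp (-t)) * K (Real.exp (s - t)) 1 := by
      have h1 := hK.hom (Real.exp t) (Real.exp (s - t)) 1 (Real.exp_pos _) (Real.exp_pos _) one_pos
      rw [← Real.exp_add, mul_one, ← Real.exp_neg] at h1
      rw [show t + (s - t) = s by ring] at h1
      exact h1
    have e1 : ENNReal.ofReal (Real.exp s) * ENNReal.ofReal (Real.exp t) *
        (K (Real.exp s) (Real.exp t)) ^ (lam p q)
        = ENNReal.ofReal (Real.exp (s / p)) * ENNReal.ofReal (Real.exp (t / q)) *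
          (H (s - t)) ^ (lam p q) := by
      rw [e0, hH]
      simp only
      rw [ENNReal.mul_rpow_of_nonneg _ _ hl.le, ENNReal.mul_rpow_of_nonneg _ _ hl.le,
        ENNReal.ofReal_rpow_of_nonneg (Real.exp_pos _).le hl.le,
        ENNReal.ofReal_rpow_of_nonneg (Real.exp_pos _).le hl.le, ← Real.exp_mul, ← Real.exp_mul,
        ← mul_assoc, ← mul_assoc, ← ENNReal.ofReal_mul (Real.exp_pos _).le,
        ← ENNReal.ofReal_mul (Real.exp_pos _).le, ← ENNReal.ofReal_mul (by positivity),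
        ← ENNReal.ofReal_mul (by positivity), ← Real.exp_add, ← Real.exp_add, ← Real.exp_add,
        ← Real.exp_add]
      congr 3
      have h2 : th p q * (s - t) * lam p q = (1 - 1 / p) * (s - t) := by
        rw [← hthl]; ring
      rw [h2]
      unfold lam
      ring
    rw [hF, hG]; simp only
    calc ENNReal.ofReal (Real.exp s) * (ENNReal.ofReal (Real.exp t) * (f (Real.exp s) *
          g (Real.exp t) * (K (Real.exp s) (Real.exp t)) ^ (lam p q)))
        = f (Real.exp s) * g (Real.exp t) * (ENNReal.ofReal (Real.exp s) *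
          ENNReal.ofReal (Real.exp t) * (K (Real.exp s) (Real.exp t)) ^ (lam p q)) := by ring
      _ = _ := by rw [e1]; ring
  rw [hL, hFp, hGq, kc_eq]
  exact line_univ hp hq hpq H mH F G mF mG

/-- The inequality for series, for kernels which are decreasing in both variables. -/
theorem series_ineq {K : ℝ → ℝ → ℝ≥0∞} (hK : Homog K)
    (hanti : ∀ x y x' y' : ℝ, 0 < x → x ≤ x' → 0 < y → y ≤ y' → K x' y' ≤ K x y)
    (a b : ℕ → ℝ≥0∞) :
    ∑' m : ℕ, ∑' n : ℕ, a m * b n * (K ((m : ℝ) + 1) ((n : ℝ) + 1)) ^ (lam p q)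
      ≤ ENNReal.ofReal (gain p q) * (kc K p q) ^ (lam p q) *
        (∑' m : ℕ, a m ^ p) ^ (1 / p) * (∑' n : ℕ, b n ^ q) ^ (1 / q) := by
  have hl := lam_pos hp hq hpq
  set f : ℝ → ℝ≥0∞ := fun x => a (⌈x⌉₊ - 1) with hf
  set g : ℝ → ℝ≥0∞ := fun x => b (⌈x⌉₊ - 1) with hg
  have mf : Measurable f := (measurable_from_top (f := fun n : ℕ => a (n - 1))).comp
    Nat.measurable_ceil
  have mg : Measurable g := (measurable_from_top (f := fun n : ℕ => b (n - 1))).comp
    Nat.measurable_ceil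
  have hfp : ∀ (r : ℝ) (c : ℕ → ℝ≥0∞), ∫⁻ x in Ioi (0 : ℝ), (c (⌈x⌉₊ - 1)) ^ r
      = ∑' m : ℕ, (c m) ^ r := by
    intro r c
    rw [lintegral_steps hp hq hpq]
    congr 1
    funext m
    have : ∫⁻ x in Ioc (m : ℝ) (m + 1), (c (⌈x⌉₊ - 1)) ^ r
        = ∫⁻ _ in Ioc (m : ℝ) (m + 1), (c m) ^ r := by
      apply setLIntegral_congr_fun measurableSet_Ioc
      intro x hx
      simp only
      rw [ceil_step hp hq hpq hx]
    rw [this]
    simp
  have h := hom_ineq hp hq hpq hK f g mf mg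
  rw [hf, hg] at h
  simp only at h
  rw [hfp p a, hfp q b] at h
  refine le_trans ?_ h
  rw [lintegral_steps hp hq hpq]
  apply ENNReal.tsum_le_tsum
  intro m
  have hm : ∀ x ∈ Ioc (m : ℝ) (m + 1), ∑' n : ℕ, a m * b n *
      (K ((m : ℝ) + 1) ((n : ℝ) + 1)) ^ (lam p q) ≤
      ∫⁻ y in Ioi (0 : ℝ), a (⌈x⌉₊ - 1) * b (⌈y⌉₊ - 1) * (K x y) ^ (lam p q) := by
    intro x hx
    rw [lintegral_steps hp hq hpq, ceil_step hp hq hpq hx]
    apply ENNReal.tsum_le_tsum
    intro n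
    calc a m * b n * (K ((m : ℝ) + 1) ((n : ℝ) + 1)) ^ (lam p q)
        = ∫⁻ _ in Ioc (n : ℝ) (n + 1), a m * b n *
          (K ((m : ℝ) + 1) ((n : ℝ) + 1)) ^ (lam p q) := by simp
      _ ≤ _ := by
          apply setLIntegral_mono' measurableSet_Ioc
          intro y hy
          rw [ceil_step hp hq hpq hy]
          apply mul_le_mul' le_rfl
          apply ENNReal.rpow_le_rpow _ hl.le
          have hm0 : (0 : ℝ) ≤ m := Nat.cast_nonneg m
          have hn0 : (0 : ℝ) ≤ n := Nat.cast_nonneg n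
          exact hanti x y _ _ (lt_of_le_of_lt hm0 hx.1) hx.2 (lt_of_le_of_lt hn0 hy.1) hy.2
  calc ∑' n : ℕ, a m * b n * (K ((m : ℝ) + 1) ((n : ℝ) + 1)) ^ (lam p q)
      = ∫⁻ _ in Ioc (m : ℝ) (m + 1), ∑' n : ℕ, a m * b n *
        (K ((m : ℝ) + 1) ((n : ℝ) + 1)) ^ (lam p q) := by simp
    _ ≤ _ := setLIntegral_mono' measurableSet_Ioc hm

/-- the kernel `1 / (x + y)` -/
noncomputable def K1 (x y : ℝ) : ℝ≥0∞ := ENNReal.ofReal (x + y)⁻¹

omit hp hq hpq in
theorem K1_homog : Homog K1 := by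
  constructor
  · exact (measurable_fst.add measurable_snd).inv.ennreal_ofReal
  · intro c x y hc hx hy
    unfold K1
    rw [← ENNReal.ofReal_mul (by positivity), ← mul_add, mul_inv]

theorem kc_K1 : (kc K1 p q) ^ (lam p q) = ENNReal.ofReal (KK p q) := by
  have hl := lam_pos hp hq hpq
  have h0 := th_pos hp hq hpq
  have h1 := th_lt hp hq hpq
  have hs := sin_pos h0 h1
  have hpi := Real.pi_pos
  have h2 : kc K1 p q = ENNReal.ofReal (Real.pi / Real.sin (Real.pi * th p q)) := by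
    rw [kc_eq]
    have h3 : ∀ w : ℝ, ENNReal.ofReal (Real.exp (th p q * w)) * K1 (Real.exp w) 1 =
        ENNReal.ofReal (Real.pi / Real.sin (Real.pi * th p q)) *
          ENNReal.ofReal (hh (th p q) w) := by
      intro w
      unfold K1 hh
      rw [← ENNReal.ofReal_mul (Real.exp_pos _).le, ← ENNReal.ofReal_mul (by positivity)]
      congr 1
      have h4 : Real.exp w + 1 ≠ 0 := by positivity
      have h5 : 1 + Real.exp w ≠ 0 := by positivity
      have h6 := hs.ne'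
      generalize Real.sin (Real.pi * th p q) = S at h6
      rw [add_comm (Real.exp w) 1]
      field_simp
    simp only [h3]
    rw [lintegral_const_mul' _ _ ENNReal.ofReal_ne_top, lintegral_hh h0 h1, mul_one]
  rw [h2, ENNReal.ofReal_rpow_of_nonneg (by positivity) hl.le, KK_eq hp hq hpq]

end

end Pool.Agent.Y527.HK
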