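import Mathlib
import Pool.Agent.H797R2.Hilbert.Main

/-!
# A universal dichotomy for three probability densities on the line
-/

set_option autoImplicit false

open MeasureTheory Set
open scoped ENNReal

namespace Pool.Agent.Y527.HK

open Pool.Agent.H797R2.Hilbert

/-- a point with given mass to the right -/
theorem exists_quantile (H : ℝ → ℝ≥0∞) (hH : Measurable H) (hH1 : ∫⁻ w, H w = 1) {c : ℝ}
    (hc0 : 0 < c) (hc1 : c < 1) : ∃ a : ℝ, (∫⁻ w in Ioi a, H w).toReal = c := by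
  obtain ⟨μ, hμ⟩ : ∃ μ : Measure ℝ, μ = volume.withDensity H := ⟨_, rfl⟩
  have hμa : ∀ S : Set ℝ, MeasurableSet S → μ S = ∫⁻ w in S, H w := by
    intro S hS
    rw [hμ, withDensity_apply _ hS]
  have hprob : IsProbabilityMeasure μ := by
    constructor
    rw [hμa _ MeasurableSet.univ, Measure.restrict_univ, hH1]
  have hat : ∀ x : ℝ, μ {x} = 0 := by
    intro x
    rw [hμa _ (measurableSet_singleton x)]
    simp
  have hcont : Continuous (ProbabilityTheory.cdf μ) := by
    rw [continuous_iff_continuousAt]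
    intro x
    rw [(ProbabilityTheory.cdf μ).mono.continuousAt_iff_leftLim_eq_rightLim,
      (ProbabilityTheory.cdf μ).rightLim_eq]
    apply le_antisymm ((ProbabilityTheory.cdf μ).mono.leftLim_le le_rfl)
    have h1 := (ProbabilityTheory.cdf μ).measure_singleton x
    rw [ProbabilityTheory.measure_cdf, hat x] at h1
    have h2 := ENNReal.ofReal_eq_zero.1 h1.symm
    linarith
  have hlow : ∃ x, ProbabilityTheory.cdf μ x ≤ 1 - c :=
    ((ProbabilityTheory.tendsto_cdf_atBot μ).eventually (ge_mem_nhds (by linarith))).exists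
  have hhigh : ∃ x, 1 - c ≤ ProbabilityTheory.cdf μ x :=
    ((ProbabilityTheory.tendsto_cdf_atTop μ).eventually (le_mem_nhds (by linarith))).exists
  obtain ⟨a, ha⟩ := mem_range_of_exists_le_of_exists_ge hcont hlow hhigh
  refine ⟨a, ?_⟩
  rw [ProbabilityTheory.cdf_eq_real] at ha
  have h3 : μ.real (Ioi a) = 1 - μ.real (Iic a) := by
    rw [← compl_Iic, measureReal_compl measurableSet_Iic]
    simp
  rw [← hμa _ measurableSet_Ioi]
  change μ.real (Ioi a) = c
  rw [h3, ha]
  ring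

/-- few points are bad -/
theorem good_mass (u ρ : ℝ → ℝ≥0∞) (hu : Measurable u) (hρm : Measurable ρ)
    (hu1 : ∫⁻ s, u s = 1) (hρ1 : ∀ s, ρ s ≤ 1) {η : ℝ} (hη0 : 0 < η) (hη1 : η ≤ 1)
    (h : ENNReal.ofReal (1 - η ^ 2) < ∫⁻ s, u s * ρ s) :
    (∫⁻ s in {s | ENNReal.ofReal (1 - η) ≤ ρ s}ᶜ, u s).toReal < η := by
  set G : Set ℝ := {s | ENNReal.ofReal (1 - η) ≤ ρ s} with hG
  have hGm : MeasurableSet G := measurableSet_le measurable_const hρm
  have hsplit := lintegral_add_compl (μ := volume) u hGm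
  rw [hu1] at hsplit
  have tG : (∫⁻ s in G, u s) ≠ ⊤ := by intro ht; rw [ht] at hsplit; simp at hsplit
  have tGc : (∫⁻ s in Gᶜ, u s) ≠ ⊤ := by intro ht; rw [ht] at hsplit; simp at hsplit
  have hsr : (∫⁻ s in G, u s).toReal + (∫⁻ s in Gᶜ, u s).toReal = 1 := by
    rw [← ENNReal.toReal_add tG tGc, hsplit, ENNReal.toReal_one]
  have h1 : ∫⁻ s, u s * ρ s ≤ (∫⁻ s in G, u s) + (∫⁻ s in Gᶜ, u s) * ENNReal.ofReal (1 - η) := by
    rw [← lintegral_add_compl _ hGm]
    apply add_le_add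
    · apply lintegral_mono
      intro s
      calc u s * ρ s ≤ u s * 1 := by gcongr; exact hρ1 s
        _ = u s := mul_one _
    · rw [← lintegral_mul_const _ hu]
      apply setLIntegral_mono' hGm.compl
      intro s hs
      gcongr
      have : ¬ (ENNReal.ofReal (1 - η) ≤ ρ s) := hs
      exact (not_le.1 this).le
  have h2 := lt_of_lt_of_le h h1
  have t3 : (∫⁻ s in Gᶜ, u s) * ENNReal.ofReal (1 - η) ≠ ⊤ :=
    ENNReal.mul_ne_top tGc ENNReal.ofReal_ne_top
  have h3 := (ENNReal.toReal_lt_toReal ENNReal.ofReal_ne_top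
    (ENNReal.add_ne_top.2 ⟨tG, t3⟩)).2 h2
  rw [ENNReal.toReal_ofReal (by nlinarith), ENNReal.toReal_add tG t3, ENNReal.toReal_mul,
    ENNReal.toReal_ofReal (by linarith)] at h3
  by_contra hc
  rw [not_lt] at hc
  nlinarith

/-- For three probability densities on the line, one of two averaged affinities is at most a
universal constant smaller than one. -/
theorem dichotomy_univ (H : ℝ → ℝ≥0∞) (hH : Measurable H) (hH1 : ∫⁻ w, H w = 1)
    (u v : ℝ → ℝ≥0∞) (hu : Measurable u) (hv : Measurable v) (hu1 : ∫⁻ s, u s = 1)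
    (hv1 : ∫⁻ t, v t = 1) :
    (∫⁻ s, u s * ∫⁻ t, (v t) ^ (1 / 2 : ℝ) * (H (s - t)) ^ (1 / 2 : ℝ) ≤
      ENNReal.ofReal (4095 / 4096)) ∨
    (∫⁻ t, v t * ∫⁻ s, (u s) ^ (1 / 2 : ℝ) * (H (s - t)) ^ (1 / 2 : ℝ) ≤
      ENNReal.ofReal (4095 / 4096)) := by
  by_contra hcon
  push Not at hcon
  obtain ⟨hA, hB⟩ := hcon
  set η : ℝ := 1 / 64 with hη
  have hη2 : (1 : ℝ) - η ^ 2 = 4095 / 4096 := by rw [hη]; norm_num
  rw [← hη2] at hA hB
  have hη0 : 0 < η := by rw [hη]; norm_num
  have hη1 : η ≤ 1 := by rw [hη]; norm_num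
  set ρ : ℝ → ℝ≥0∞ := fun s => ∫⁻ t, (v t) ^ (1 / 2 : ℝ) * (H (s - t)) ^ (1 / 2 : ℝ) with hρ
  set σ : ℝ → ℝ≥0∞ := fun t => ∫⁻ s, (u s) ^ (1 / 2 : ℝ) * (H (s - t)) ^ (1 / 2 : ℝ) with hσ
  have hHs : ∀ s, Measurable fun t => H (s - t) := fun s =>
    hH.comp (measurable_const.sub measurable_id)
  have hHt : ∀ t, Measurable fun s => H (s - t) := fun t =>
    hH.comp (measurable_id.sub measurable_const)
  have hHs1 : ∀ s, ∫⁻ t, H (s - t) = 1 := fun s => by rw [lintegral_shift, hH1]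
  have hHt1 : ∀ t, ∫⁻ s, H (s - t) = 1 := fun t => by
    rw [lintegral_sub_right_eq_self H t, hH1]
  have hρm : Measurable ρ := by
    apply Measurable.lintegral_prod_right'
      (f := fun p : ℝ × ℝ => (v p.2) ^ (1 / 2 : ℝ) * (H (p.1 - p.2)) ^ (1 / 2 : ℝ))
    exact ((hv.comp measurable_snd).pow_const _).mul
      ((hH.comp (measurable_fst.sub measurable_snd)).pow_const _)
  have hσm : Measurable σ := by
    apply Measurable.lintegral_prod_right'
      (f := fun p : ℝ × ℝ => (u p.2) ^ (1 / 2 : ℝ) * (H (p.2 - p.1)) ^ (1 / 2 : ℝ))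
    exact ((hu.comp measurable_snd).pow_const _).mul
      ((hH.comp (measurable_snd.sub measurable_fst)).pow_const _)
  have hρ1 : ∀ s, ρ s ≤ 1 := fun s => affinity_le_one _ _ _ hv (hHs s) hv1 (hHs1 s)
  have hσ1 : ∀ t, σ t ≤ 1 := fun t => affinity_le_one _ _ _ hu (hHt t) hu1 (hHt1 t)
  have b1 := good_mass u ρ hu hρm hu1 hρ1 hη0 hη1 hA
  have b2 := good_mass v σ hv hσm hv1 hσ1 hη0 hη1 hB
  set G : Set ℝ := {s | ENNReal.ofReal (1 - η) ≤ ρ s} with hG
  set G' : Set ℝ := {t | ENNReal.ofReal (1 - η) ≤ σ t} with hG'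
  have hle : ∀ (w : ℝ → ℝ≥0∞), ∫⁻ s, w s = 1 → ∀ S : Set ℝ, ∫⁻ s in S, w s ≠ ⊤ := by
    intro w hw S
    exact ne_top_of_le_ne_top ENNReal.one_ne_top (by rw [← hw]; exact setLIntegral_le_lintegral _ _)
  obtain ⟨t₀, ht₀⟩ : G'.Nonempty := by
    by_contra hne
    rw [not_nonempty_iff_eq_empty] at hne
    rw [hne, compl_empty, Measure.restrict_univ, hv1, ENNReal.toReal_one] at b2
    linarith
  obtain ⟨a, ha⟩ := exists_quantile H hH hH1 (c := 3 / 4) (by norm_num) (by norm_num)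
  obtain ⟨b, hb⟩ := exists_quantile H hH hH1 (c := 1 / 4) (by norm_num) (by norm_num)
  have hIoi : ∀ x : ℝ, ∫⁻ s in Ioi (x + t₀), H (s - t₀) = ∫⁻ w in Ioi x, H w := by
    intro x
    rw [← lintegral_indicator measurableSet_Ioi, ← lintegral_indicator measurableSet_Ioi,
      ← lintegral_sub_right_eq_self ((Ioi x).indicator H) t₀]
    apply lintegral_congr
    intro s
    simp only [indicator, mem_Ioi]
    by_cases h : x + t₀ < s
    · rw [if_pos h, if_pos (by linarith)]
    · rw [if_neg h, if_neg (by linarith)]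
  have hu_mono : ∀ S T : Set ℝ, S ⊆ T → (∫⁻ s in S, u s).toReal ≤ (∫⁻ s in T, u s).toReal := by
    intro S T hST
    exact ENNReal.toReal_mono (hle u hu1 T) (lintegral_mono_set hST)
  -- a good point far to the right
  obtain ⟨s, hs, hsb⟩ : ∃ s ∈ G, b + t₀ < s := by
    by_contra hne
    push Not at hne
    have h1 := event_close volume u (fun s => H (s - t₀)) hu (hHt t₀) hu1 (hHt1 t₀)
      (Ioi (b + t₀)) measurableSet_Ioi hη0.le hη1 ht₀
    rw [hIoi, hb] at h1
    have h2 := hu_mono (Ioi (b + t₀)) Gᶜ (fun x hx hxG => absurd (hne x hxG) (not_le.2 hx))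
    rw [hη] at h1 b1
    nlinarith
  -- a good point far to the left
  obtain ⟨s', hs', hsa⟩ : ∃ s' ∈ G, s' ≤ a + t₀ := by
    by_contra hne
    push Not at hne
    have h1 := event_close volume u (fun s => H (s - t₀)) hu (hHt t₀) hu1 (hHt1 t₀)
      (Ioi (a + t₀)) measurableSet_Ioi hη0.le hη1 ht₀
    rw [hIoi, ha] at h1
    have h2 := hu_mono (Ioi (a + t₀))ᶜ Gᶜ (fun x hx hxG => hx (hne x hxG))
    have h3 := lintegral_add_compl (μ := volume) u (measurableSet_Ioi (a := a + t₀))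
    rw [hu1] at h3
    have h4 := congrArg ENNReal.toReal h3
    rw [ENNReal.toReal_add (hle u hu1 _) (hle u hu1 _), ENNReal.toReal_one] at h4
    rw [hη] at h1 b1
    nlinarith
  -- the contradiction
  have hQ : ∀ c s : ℝ, ∫⁻ t in Iio c, H (s - t) = ∫⁻ w in Ioi (s - c), H w := by
    intro c s
    rw [← lintegral_indicator measurableSet_Iio, ← lintegral_indicator measurableSet_Ioi,
      ← lintegral_shift ((Ioi (s - c)).indicator H) s]
    apply lintegral_congr
    intro t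
    simp only [indicator, mem_Iio, mem_Ioi]
    by_cases h : t < c
    · rw [if_pos h, if_pos (by linarith)]
    · rw [if_neg h, if_neg (by linarith)]
  have e1 := event_close volume v (fun t => H (s - t)) hv (hHs s) hv1 (hHs1 s) (Iio (s' - a))
    measurableSet_Iio hη0.le hη1 hs
  have e2 := event_close volume v (fun t => H (s' - t)) hv (hHs s') hv1 (hHs1 s') (Iio (s' - a))
    measurableSet_Iio hη0.le hη1 hs'
  rw [hQ] at e1 e2
  rw [show s' - (s' - a) = a by ring, ha] at e2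
  have e3 : (∫⁻ w in Ioi (s - (s' - a)), H w).toReal ≤ 1 / 4 := by
    rw [← hb]
    apply ENNReal.toReal_mono (hle H hH1 _)
    apply lintegral_mono_set
    intro x hx
    rw [mem_Ioi] at *
    linarith
  rw [hη] at e1 e2
  set P := (∫⁻ x in Iio (s' - a), v x).toReal
  set T := (∫⁻ w in Ioi (s - (s' - a)), H w).toReal
  nlinarith [sq_nonneg ((P - T) + (P - 3 / 4))]

/-- the factor -/
noncomputable def gain (p q : ℝ) : ℝ :=
  (4095 / 4096) ^ (2 * min (1 / p + 1 / q - 1) (min (1 - 1 / p) (1 - 1 / q)))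

section
variable {p q : ℝ} (hp : 1 < p) (hq : 1 < q) (hpq : 1 < 1 / p + 1 / q)
include hp hq hpq

theorem gain_pos : 0 < gain p q := Real.rpow_pos_of_pos (by norm_num) _

theorem gain_lt : gain p q < 1 := by
  obtain ⟨i1, i2, i3, i4⟩ := inv_facts hp hq hpq
  apply Real.rpow_lt_one (by norm_num) (by norm_num)
  have h1 : 0 < 1 / p + 1 / q - 1 := by linarith
  have h2 : 0 < 1 - 1 / p := by linarith
  have h3 : 0 < 1 - 1 / q := by linarith
  have := lt_min h1 (lt_min h2 h3)
  linarith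

/-- The normalized inequality. -/
theorem normalized_univ (H : ℝ → ℝ≥0∞) (hHm : Measurable H) (hH1 : ∫⁻ w, H w = 1)
    (u v : ℝ → ℝ≥0∞) (hu : Measurable u) (hv : Measurable v)
    (hu1 : ∫⁻ s, u s = 1) (hv1 : ∫⁻ t, v t = 1) :
    ∫⁻ s, ∫⁻ t, (u s) ^ (1 / p) * (v t) ^ (1 / q) * (H (s - t)) ^ (lam p q)
      ≤ ENNReal.ofReal (gain p q) := by
  obtain ⟨i1, i2, i3, i4⟩ := inv_facts hp hq hpq
  have hl0 := lam_pos hp hq hpq
  have hl1 := lam_lt hp hq hpq
  obtain ⟨κ, hκ⟩ : ∃ κ : ℝ, κ = 4095 / 4096 := ⟨_, rfl⟩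
  have hκ0 : 0 < κ := by rw [hκ]; norm_num
  have hκ1 : κ < 1 := by rw [hκ]; norm_num
  set a := 1 - lam p q with ha
  set b := 1 - 1 / q with hb
  set c := 1 - 1 / p with hc
  have ha0 : 0 < a := by linarith
  have hb0 : 0 < b := by linarith
  have hc0 : 0 < c := by linarith
  have hbc : b + c = lam p q := by rw [hb, hc]; unfold lam; ring
  have habc : a + b + c = 1 := by linarith
  have hacb : a + c + b = 1 := by linarith
  have hgain : gain p q = κ ^ (2 * min a (min c b)) := by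
    unfold gain
    rw [hκ, ha]
    congr 3
    unfold lam
    ring
  have hm1 : 0 < 2 * min a b := by have := lt_min ha0 hb0; linarith
  have hm2 : 0 < 2 * min a c := by have := lt_min ha0 hc0; linarith
  have hg1 : κ ^ (2 * min a b) ≤ gain p q := by
    rw [hgain]
    apply Real.rpow_le_rpow_of_exponent_ge hκ0 hκ1.le
    have : min a (min c b) ≤ min a b := min_le_min_left _ (min_le_right _ _)
    linarith
  have hg2 : κ ^ (2 * min a c) ≤ gain p q := by
    rw [hgain]
    apply Real.rpow_le_rpow_of_exponent_ge hκ0 hκ1.le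
    have : min a (min c b) ≤ min a c := min_le_min_left _ (min_le_left _ _)
    linarith
  set α : ℝ × ℝ → ℝ≥0∞ := fun z => u z.1 * v z.2 with hα
  set β : ℝ × ℝ → ℝ≥0∞ := fun z => u z.1 * H (z.1 - z.2) with hβ
  set γ : ℝ × ℝ → ℝ≥0∞ := fun z => v z.2 * H (z.1 - z.2) with hγ
  have hdiff : Measurable fun z : ℝ × ℝ => H (z.1 - z.2) :=
    hHm.comp (measurable_fst.sub measurable_snd)
  have mα : Measurable α := (hu.comp measurable_fst).mul (hv.comp measurable_snd)
  have mβ : Measurable β := (hu.comp measurable_fst).mul hdiff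
  have mγ : Measurable γ := (hv.comp measurable_snd).mul hdiff
  have mHs : ∀ s : ℝ, Measurable fun t => H (s - t) := fun s =>
    hHm.comp (measurable_const.sub measurable_id)
  have mHt : ∀ t : ℝ, Measurable fun s => H (s - t) := fun t =>
    hHm.comp (measurable_id.sub measurable_const)
  have hs1 : ∀ s, ∫⁻ t, H (s - t) = 1 := fun s => by rw [lintegral_shift, hH1]
  have ht1' : ∀ t, ∫⁻ s, H (s - t) = 1 := fun t => by
    rw [lintegral_sub_right_eq_self H t, hH1]
  have iα : ∫⁻ z, α z ∂(volume.prod volume) = 1 := by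
    rw [hα, lintegral_prod_mul hu.aemeasurable hv.aemeasurable, hu1, hv1, one_mul]
  have iβ : ∫⁻ z, β z ∂(volume.prod volume) = 1 := by
    rw [lintegral_prod _ mβ.aemeasurable]
    have : ∀ s, ∫⁻ t, β (s, t) = u s := by
      intro s
      rw [hβ]
      simp only
      rw [lintegral_const_mul _ (mHs s), hs1, mul_one]
    simp only [this, hu1]
  have iγ : ∫⁻ z, γ z ∂(volume.prod volume) = 1 := by
    rw [lintegral_prod_symm _ mγ.aemeasurable]
    have : ∀ t, ∫⁻ s, γ (s, t) = v t := by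
      intro t
      rw [hγ]
      simp only
      rw [lintegral_const_mul _ (mHt t), ht1', mul_one]
    simp only [this, hv1]
  have hint : ∫⁻ s, ∫⁻ t, (u s) ^ (1 / p) * (v t) ^ (1 / q) * (H (s - t)) ^ (lam p q)
      = ∫⁻ z, (α z) ^ a * (β z) ^ b * (γ z) ^ c ∂(volume.prod volume) := by
    have mm : Measurable fun z => (α z) ^ a * (β z) ^ b * (γ z) ^ c :=
      ((mα.pow_const _).mul (mβ.pow_const _)).mul (mγ.pow_const _)
    rw [lintegral_prod _ mm.aemeasurable]
    apply lintegral_congr; intro s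
    apply lintegral_congr; intro t
    simp only [hα, hβ, hγ]
    rw [ENNReal.mul_rpow_of_nonneg _ _ ha0.le, ENNReal.mul_rpow_of_nonneg _ _ hb0.le,
      ENNReal.mul_rpow_of_nonneg _ _ hc0.le]
    have e1 : (u s) ^ (1 / p) = (u s) ^ a * (u s) ^ b := by
      rw [← ENNReal.rpow_add_of_nonneg _ _ ha0.le hb0.le]; congr 1; linarith
    have e2 : (v t) ^ (1 / q) = (v t) ^ a * (v t) ^ c := by
      rw [← ENNReal.rpow_add_of_nonneg _ _ ha0.le hc0.le]; congr 1; linarith
    have e3 : (H (s - t)) ^ (lam p q) = (H (s - t)) ^ b * (H (s - t)) ^ c := by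
      rw [← ENNReal.rpow_add_of_nonneg _ _ hb0.le hc0.le, hbc]
    rw [e1, e2, e3]; ring
  rw [hint]
  rcases dichotomy_univ H hHm hH1 u v hu hv hu1 hv1 with h | h
  · have h1 := holder_gain (volume.prod volume) α β γ mα mβ mγ iα iβ iγ a b c ha0.le hb0.le hc0.le
      habc
    refine h1.trans ?_
    have h2 : ∫⁻ z, (α z) ^ (1 / 2 : ℝ) * (β z) ^ (1 / 2 : ℝ) ∂(volume.prod volume)
        = ∫⁻ s, u s * ∫⁻ t, (v t) ^ (1 / 2 : ℝ) * (H (s - t)) ^ (1 / 2 : ℝ) := by
      have mm : Measurable fun z => (α z) ^ (1 / 2 : ℝ) * (β z) ^ (1 / 2 : ℝ) :=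
        (mα.pow_const _).mul (mβ.pow_const _)
      rw [lintegral_prod _ mm.aemeasurable]
      apply lintegral_congr; intro s
      have mm2 : Measurable fun t => (v t) ^ (1 / 2 : ℝ) * (H (s - t)) ^ (1 / 2 : ℝ) :=
        (hv.pow_const _).mul ((mHs s).pow_const _)
      rw [← lintegral_const_mul _ mm2]
      apply lintegral_congr; intro t
      simp only [hα, hβ]
      rw [ENNReal.mul_rpow_of_nonneg _ _ (by norm_num), ENNReal.mul_rpow_of_nonneg _ _ (by norm_num)]
      conv_rhs => rw [← half_add_half (x := u s)]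
      ring
    rw [h2]
    calc _ ≤ (ENNReal.ofReal (4095 / 4096)) ^ (2 * min a b) := by gcongr
      _ = ENNReal.ofReal (κ ^ (2 * min a b)) := by
          rw [← hκ]
          exact ENNReal.ofReal_rpow_of_nonneg hκ0.le hm1.le
      _ ≤ _ := ENNReal.ofReal_le_ofReal hg1
  · have h0 : ∫⁻ z, (α z) ^ a * (β z) ^ b * (γ z) ^ c ∂(volume.prod volume)
        = ∫⁻ z, (α z) ^ a * (γ z) ^ c * (β z) ^ b ∂(volume.prod volume) := by
      apply lintegral_congr; intro z; ring
    rw [h0]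
    have h1 := holder_gain (volume.prod volume) α γ β mα mγ mβ iα iγ iβ a c b ha0.le hc0.le hb0.le
      hacb
    refine h1.trans ?_
    have h2 : ∫⁻ z, (α z) ^ (1 / 2 : ℝ) * (γ z) ^ (1 / 2 : ℝ) ∂(volume.prod volume)
        = ∫⁻ t, v t * ∫⁻ s, (u s) ^ (1 / 2 : ℝ) * (H (s - t)) ^ (1 / 2 : ℝ) := by
      have mm : Measurable fun z => (α z) ^ (1 / 2 : ℝ) * (γ z) ^ (1 / 2 : ℝ) :=
        (mα.pow_const _).mul (mγ.pow_const _)
      rw [lintegral_prod_symm _ mm.aemeasurable]
      apply lintegral_congr; intro t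
      have mm2 : Measurable fun s => (u s) ^ (1 / 2 : ℝ) * (H (s - t)) ^ (1 / 2 : ℝ) :=
        (hu.pow_const _).mul ((mHt t).pow_const _)
      rw [← lintegral_const_mul _ mm2]
      apply lintegral_congr; intro s
      simp only [hα, hγ]
      rw [ENNReal.mul_rpow_of_nonneg _ _ (by norm_num), ENNReal.mul_rpow_of_nonneg _ _ (by norm_num)]
      conv_rhs => rw [← half_add_half (x := v t)]
      ring
    rw [h2]
    calc _ ≤ (ENNReal.ofReal (4095 / 4096)) ^ (2 * min a c) := by gcongr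
      _ = ENNReal.ofReal (κ ^ (2 * min a c)) := by
          rw [← hκ]
          exact ENNReal.ofReal_rpow_of_nonneg hκ0.le hm2.le
      _ ≤ _ := ENNReal.ofReal_le_ofReal hg2

end

end Pool.Agent.Y527.HK
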